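import Pool.Agent.Helper73.RT.Defs

/-!
# Project RT, module A6: unordered pairs between two sets
-/

set_option autoImplicit false

open Finset

namespace Pool.Agent.Helper73.RT

theorem mem_pairsOf {N : ℕ} (J J' : Finset (Fin N)) (e : Sym2 (Fin N)) :
    e ∈ pairsOf J J' ↔ ∃ x ∈ J, ∃ y ∈ J', x ≠ y ∧ e = s(x, y) := by
  rw [pairsOf, mem_image]
  constructor
  · rintro ⟨⟨x, y⟩, h, rfl⟩
    rw [mem_filter, mem_product] at h
    exact ⟨x, h.1.1, y, h.1.2, h.2, rfl⟩
  · rintro ⟨x, hx, y, hy, hxy, rfl⟩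
    refine ⟨(x, y), ?_, rfl⟩
    rw [mem_filter, mem_product]
    exact ⟨⟨hx, hy⟩, hxy⟩

theorem pairsOf_self_card {N : ℕ} (J : Finset (Fin N)) :
    (pairsOf J J).card = J.card.choose 2 := by
  have h := Sym2.card_image_offDiag J
  rw [← h]
  congr 1
  ext e
  rw [mem_pairsOf, mem_image]
  constructor
  · rintro ⟨x, hx, y, hy, hxy, rfl⟩
    exact ⟨(x, y), mem_offDiag.2 ⟨hx, hy, hxy⟩, rfl⟩
  · rintro ⟨⟨x, y⟩, h, rfl⟩
    rw [mem_offDiag] at h
    exact ⟨x, h.1, y, h.2.1, h.2.2, rfl⟩

theorem pairsOf_card_le {N : ℕ} (J J' : Finset (Fin N)) :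
    (pairsOf J J').card ≤ J.card * J'.card := by
  rw [pairsOf]
  refine card_image_le.trans ?_
  refine (card_filter_le _ _).trans ?_
  rw [card_product]

theorem pairsOf_card_ge {N : ℕ} (J J' : Finset (Fin N)) :
    J.card * J'.card ≤ 2 * (pairsOf J J').card + J.card := by
  classical
  -- the diagonal part
  have h1 : ((J ×ˢ J').filter fun p => ¬ p.1 ≠ p.2).card ≤ J.card := by
    refine card_le_card_of_injOn (fun p => p.1) ?_ ?_
    · intro p hp
      rw [mem_coe, mem_filter, mem_product] at hp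
      exact hp.1.1
    · intro p hp q hq h
      rw [mem_coe, mem_filter] at hp hq
      have e1 : p.1 = p.2 := not_not.1 hp.2
      have e2 : q.1 = q.2 := not_not.1 hq.2
      have e3 : p.1 = q.1 := h
      exact Prod.ext e3 (by rw [← e1, ← e2, e3])
  have h2 : ((J ×ˢ J').filter fun p => p.1 ≠ p.2).card ≤ 2 * (pairsOf J J').card := by
    refine card_le_mul_card_image (f := fun p : Fin N × Fin N => s(p.1, p.2))
      ((J ×ˢ J').filter fun p => p.1 ≠ p.2) 2 ?_
    intro e he
    induction e with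
    | _ x y =>
      have hsub : (((J ×ˢ J').filter fun p => p.1 ≠ p.2).filter
          fun p : Fin N × Fin N => s(p.1, p.2) = s(x, y)) ⊆ {(x, y), (y, x)} := by
        intro p hp
        rw [mem_filter] at hp
        have h3 := hp.2
        rw [Sym2.eq_iff] at h3
        rw [mem_insert, mem_singleton]
        rcases h3 with h3 | h3
        · exact Or.inl (Prod.ext h3.1 h3.2)
        · exact Or.inr (Prod.ext h3.1 h3.2)
      exact (card_le_card hsub).trans card_le_two
  have h3 := card_filter_add_card_filter_not (s := J ×ˢ J') (fun p => p.1 ≠ p.2)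
  rw [card_product] at h3
  omega

end Pool.Agent.Helper73.RT
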